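import Pool.Agent.LibBM73.M6

/-! The family of metrics of area one. -/

open MeasureTheory Set Filter Topology
open scoped ContDiff unitInterval

namespace BM73

open BGS BR
open BGM (cf Rp Iv Had Cx mx ex ps ps_cont D2_smooth)
open Pool.BGR (PM upI pj)

section

variable {Ξ : Type} [TopologicalSpace Ξ] {Γ : Type} [Group Γ] [MulAction Γ Pl] {D : Set Pl}
  {m : Pl → Co} {h : Ξ → Pl → ℝ}

theorem CF.sub (H : CF Γ m h) {c : Ξ → ℝ} (hc : Continuous c) :
    CF Γ m fun ξ z => h ξ z - c ξ where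
  rp := H.rp
  iv := H.iv
  base := H.base
  test := fun ξ => ⟨(H.test ξ).1.sub contDiff_const, fun γ z => by
    show h ξ (γ • z) - c ξ = h ξ z - c ξ
    rw [(H.test ξ).2 γ z]⟩
  cont := fun ξ₀ ε hε => by
    have h1 := (Metric.tendsto_nhds.1 (hc.tendsto ξ₀)) (ε / 2) (by positivity)
    filter_upwards [H.cont ξ₀ (ε / 2) (by positivity), h1] with ξ h2 h3 z
    rw [Real.dist_eq] at h3
    have h4 : h ξ z - c ξ - (h ξ₀ z - c ξ₀) = (h ξ z - h ξ₀ z) - (c ξ - c ξ₀) := by ring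
    rw [h4]
    have h5 := abs_sub (h ξ z - h ξ₀ z) (c ξ - c ξ₀)
    linarith [h2 z]

theorem dt_cf (f : Pl → ℝ) (m : Pl → Co) (z : Pl) :
    √(dt (cf f m z)) = Real.exp (f z) * √(dt (m z)) := by
  have h1 : dt (cf f m z) = Real.exp (f z) ^ 2 * dt (m z) := by
    unfold cf dt
    simp only [Prod.smul_fst, Prod.smul_snd, smul_eq_mul]
    ring
  rw [h1, Real.sqrt_mul (by positivity), Real.sqrt_sq (Real.exp_pos _).le]

theorem CF.area_pos (hX : Surface Γ D) (H : CF Γ m h) (hA : 0 < ∫ z in D, √(dt (m z))) (ξ : Ξ) :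
    0 < ∫ z in D, √(dt (cf (h ξ) m z)) := by
  obtain ⟨B, hB, h1⟩ := test_bdd hX ⟨h ξ, H.test ξ⟩
  have hd : Continuous fun z => √(dt (m z)) :=
    Real.continuous_sqrt.comp (Cmp_dt_cont.comp H.rp.smooth.continuous)
  have h2 : 0 < Real.exp (-B) * ∫ z in D, √(dt (m z)) := mul_pos (Real.exp_pos _) hA
  refine h2.trans_le ?_
  simp only [dt_cf]
  rw [← integral_const_mul]
  refine integral_mono ((Cmp_int hX hd).const_mul _)
    (Cmp_int hX ((Real.continuous_exp.comp (H.test ξ).1.continuous).mul hd)) fun z => ?_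
  show Real.exp (-B) * √(dt (m z)) ≤ Real.exp (h ξ z) * √(dt (m z))
  refine mul_le_mul_of_nonneg_right (Real.exp_le_exp.2 ?_) (Real.sqrt_nonneg _)
  exact (abs_le.1 (h1 z)).1

/-- The exponents of the metrics of area one. -/
theorem CF.norm (hX : Surface Γ D) (H : CF Γ m h) (hA : 0 < ∫ z in D, √(dt (m z))) :
    CF Γ m fun ξ z => h ξ z - Real.log (∫ w in D, √(dt (cf (h ξ) m w))) :=
  H.sub ((H.cont_area hX).log fun ξ => (H.area_pos hX hA ξ).ne')

theorem CF.norm_area (hX : Surface Γ D) (H : CF Γ m h) (hA : 0 < ∫ z in D, √(dt (m z))) (ξ : Ξ) :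
    ∫ z in D, √(dt (cf (fun z => h ξ z - Real.log (∫ w in D, √(dt (cf (h ξ) m w)))) m z)) = 1 := by
  have h1 := H.area_pos hX hA ξ
  set A := ∫ w in D, √(dt (cf (h ξ) m w)) with hAd
  have e : ∀ z, √(dt (cf (fun z => h ξ z - Real.log A) m z)) = A⁻¹ * √(dt (cf (h ξ) m z)) := by
    intro z
    rw [dt_cf, dt_cf, sub_eq_add_neg, Real.exp_add, Real.exp_neg, Real.exp_log h1]
    ring
  simp only [e]
  rw [integral_const_mul, ← hAd, inv_mul_cancel₀ h1.ne']

end

variable {Γ : Type} [Group Γ] [MulAction Γ Pl] {D : Set Pl} {m : Pl → Co} {ψ : Pl → ℝ} {L : ℕ}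
  {c : ℕ → ℝ}

/-- The random family. -/
theorem CF_ex (h : Cx Γ D m ψ L c) : CF Γ m (ex Γ ψ L c) where
  rp := h.rp
  iv := h.iv
  base := h.base
  test := fun ξ => D2_smooth h ξ
  cont := fun ξ₀ ε hε => by
    filter_upwards [ps_cont h.hX L h.cs ξ₀ hε] with ξ h1 z
    unfold ex
    rw [add_sub_add_left_eq_sub]
    exact h1 z

end BM73
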