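import Pool.Agent.LibBM73.M7
import Pool.Agent.LibTR29.T6

/-! Measurability of the geometric side of the trace formula. -/

open MeasureTheory Set Filter Topology
open scoped ContDiff unitInterval

namespace BM73

open BGS BR TR
open BGM (Rp)

/-- Sums over countable sets. -/
theorem meas_finsum {ι C : Type} [Countable ι] [MeasurableSpace C] {f : ι → C → ℝ}
    (hf : ∀ i, Measurable (f i)) (hs : ∀ c, (Function.support fun i => f i c).Finite) :
    Measurable fun c => ∑ᶠ i, f i c := by
  classical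
  obtain ⟨e, he⟩ := exists_injective_nat ι
  have h1 : ∀ n : ℕ, ((Finset.range n).preimage e he.injOn : Set ι).Finite := fun n =>
    Finset.finite_toSet _
  refine measurable_of_tendsto_metrizable
    (f := fun (n : ℕ) (c : C) => ∑ i ∈ (Finset.range n).preimage e he.injOn, f i c)
    (fun n => Finset.measurable_sum _ fun i _ => hf i) ?_
  rw [tendsto_pi_nhds]
  intro c
  have h2 : ∑ᶠ i, f i c = ∑ i ∈ (hs c).toFinset, f i c :=
    finsum_eq_sum_of_support_toFinset_subset _ (hs c) (le_refl _)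
  obtain ⟨n, hn⟩ : ∃ n, ∀ i ∈ (hs c).toFinset, e i < n := by
    refine ⟨((hs c).toFinset.sup e) + 1, fun i hi => ?_⟩
    exact Nat.lt_succ_of_le (Finset.le_sup (f := e) hi)
  refine tendsto_const_nhds.congr' ?_
  filter_upwards [eventually_ge_atTop n] with k hk
  rw [h2]
  refine Finset.sum_subset ?_ ?_
  · intro i hi
    rw [Finset.mem_preimage, Finset.mem_range]
    exact (hn i hi).trans_le hk
  · intro i _ hi
    by_contra h3
    exact hi ((hs c).mem_toFinset.2 h3)

/-- Subsums. -/
theorem meas_finsum_mem {ι C : Type} [Countable ι] [MeasurableSpace C] {f : ι → C → ℝ}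
    (S : Set ι) (hf : ∀ i, Measurable (f i))
    (hs : ∀ c, (Function.support fun i => f i c).Finite) :
    Measurable fun c => ∑ᶠ i ∈ S, f i c := by
  classical
  have e : (fun c => ∑ᶠ i ∈ S, f i c) = fun c => ∑ᶠ i, (if i ∈ S then f i c else 0) := by
    funext c
    rw [finsum_mem_def]
    refine finsum_congr fun i => ?_
    by_cases hi : i ∈ S
    · rw [indicator_of_mem hi, if_pos hi]
    · rw [indicator_of_notMem hi, if_neg hi]
  rw [e]
  refine meas_finsum (fun i => ?_) fun c => (hs c).subset fun i hi => ?_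
  · by_cases hi : i ∈ S
    · simp only [if_pos hi]
      exact hf i
    · simp only [if_neg hi]
      exact measurable_const
  · intro h0
    refine hi ?_
    show (if i ∈ S then f i c else 0) = 0
    rw [show f i c = 0 from h0, ite_self]

/-- The area of the surface is positive. -/
theorem area_pos {Γ : Type} [Group Γ] [MulAction Γ Pl] {D : Set Pl} {m : Pl → Co}
    (hX : Surface Γ D) (hm : Rp m) : 0 < ∫ z in D, √(dt (m z)) := by
  have hC : Countable Γ := Cover_countable hX
  have hv : volume D ≠ 0 := by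
    intro h0
    have h1 : ∀ γ : Γ, volume ((fun z : Pl => γ • z) '' D) = 0 := fun γ =>
      addHaar_image_eq_zero_of_differentiableOn_of_addHaar_eq_zero volume
        ((hX.smooth γ).differentiable (by simp)).differentiableOn h0
    have h2 : volume (⋃ γ : Γ, (fun z : Pl => γ • z) '' D) = 0 := by
      rw [measure_iUnion_null_iff]
      exact h1
    have h3 : (⋃ γ : Γ, (fun z : Pl => γ • z) '' D) = univ := by
      rw [eq_univ_iff_forall]
      intro z
      obtain ⟨γ, hγ, -⟩ := hX.orbit z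
      refine mem_iUnion.2 ⟨γ⁻¹, γ • z, hγ, ?_⟩
      exact inv_smul_smul γ z
    rw [h3] at h2
    have h4 := (isOpen_univ (X := Pl)).measure_pos volume ⟨0, mem_univ _⟩
    rw [h2] at h4
    exact lt_irrefl _ h4
  have hd : Continuous fun z => √(dt (m z)) :=
    Real.continuous_sqrt.comp (Cmp_dt_cont.comp hm.smooth.continuous)
  rw [setIntegral_pos_iff_support_of_nonneg_ae (Eventually.of_forall fun z => Real.sqrt_nonneg _)
    (Cmp_int hX hd)]
  have h5 : (Function.support fun z => √(dt (m z))) = univ := by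
    rw [eq_univ_iff_forall]
    intro z
    exact (Real.sqrt_pos.2 (hm.pos z).2).ne'
  rw [h5, univ_inter]
  exact pos_iff_ne_zero.2 hv

variable {Ω : Type} [MeasurableSpace Ω] {Γ : Type} [Group Γ] [MulAction Γ Pl] {D : Set Pl}
  {M : Ω → Pl → Co}

/-- The area density. -/
theorem meas_rho (h : MF Γ M) : Measurable fun p : Ω × Pl => √(dt (M p.1 p.2)) :=
  (meas_dt h).sqrt

/-- One term of the geometric side. -/
theorem meas_IK (hX : Surface Γ D) (h : MF Γ M) (N : ℕ) {a : ℝ → ℂ} (ha : ContDiff ℝ ∞ a)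
    (γ : Γ) : Measurable fun p : Ω × ℝ =>
      ∫ x in D, KK (Gx (M p.1) x) N (osc a p.2) (Vx (M p.1) x (γ • x)) * √(dt (M p.1 x)) := by
  have h1 : Measurable fun q : (Ω × ℝ) × Pl => (((q.1.1, q.2), q.1.2) : (Ω × Pl) × ℝ) := by
    fun_prop
  have h2 : Measurable fun q : (Ω × ℝ) × Pl => ((q.1.1, q.2) : Ω × Pl) := by fun_prop
  have h3 := ((meas_Kg hX h N ha γ).comp h1).mul ((meas_rho h).comp h2)
  have h4 := StronglyMeasurable.integral_prod_right' (ν := volume.restrict D)
    h3.stronglyMeasurable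
  exact h4.measurable

theorem IK_zero {m : Pl → Co} (N : ℕ) {g : ℝ → ℝ} (hg : ContDiff ℝ ∞ g) {ρ : ℝ}
    (hρ : 0 ≤ ρ) (hs : ∀ t, ρ < |t| → g t = 0) {γ : Γ} (hγ : γ ∉ near Γ D m ρ) :
    ∫ x in D, KK (Gx m x) N g (Vx m x (γ • x)) * √(dt (m x)) = 0 := by
  refine setIntegral_eq_zero_of_forall_eq_zero fun x hx => ?_
  rw [KK_zero (Gx m x) N hg hρ hs, zero_mul]
  by_contra h1
  rw [not_lt] at h1
  exact hγ ⟨x, subset_closure hx, x, subset_closure hx, h1⟩

theorem amp_max {a : ℝ → ℂ} {ρ B : ℝ} (ha : Amp a ρ B) : Amp a (max ρ 0) B where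
  smooth := ha.smooth
  conj := ha.conj
  supp := fun t ht => ha.supp t ((le_max_left _ _).trans_lt ht)
  bound := ha.bound

/-- The geometric side. -/
theorem meas_geo (hX : Surface Γ D) (hO : Ori Γ) (h : MF Γ M) (N : ℕ) {a : ℝ → ℂ} {ρ B : ℝ}
    (ha : Amp a ρ B) (S : Set Γ) : Measurable fun p : Ω × ℝ =>
      ∑ᶠ γ ∈ S, ∫ x in D, KK (Gx (M p.1) x) N (osc a p.2) (Vx (M p.1) x (γ • x)) *
        √(dt (M p.1 x)) := by
  have hC : Countable Γ := Cover_countable hX
  have ha' := amp_max ha
  refine meas_finsum_mem S (fun γ => meas_IK hX h N ha.smooth γ) fun p => ?_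
  obtain ⟨C, -, h3⟩ := near_fin hX hO (h.hm p.1)
  refine (h3 _ (le_max_right ρ 0)).1.subset fun γ hγ => ?_
  by_contra h4
  exact hγ (IK_zero N (osc_smooth ha' p.2) (le_max_right ρ 0) (osc_supp ha' p.2) h4)

end BM73
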