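import Pool.Agent.LibBR70.H1j
import Pool.Agent.LibBR70.PX_Defs

/-! Measurability in a parameter: derivatives of jointly measurable functions are jointly
measurable. -/

open MeasureTheory Set Filter Topology
open scoped ContDiff

namespace BM73

open BGS BR

variable {Ω : Type} [MeasurableSpace Ω]

/-- The derivative in a fixed direction is a limit of difference quotients. -/
theorem meas_deriv {E F : Type} [NormedAddCommGroup E] [NormedSpace ℝ E] [MeasurableSpace E]
    [BorelSpace E] [SecondCountableTopology E] [NormedAddCommGroup F] [NormedSpace ℝ F]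
    [MeasurableSpace F] [BorelSpace F] [SecondCountableTopology F] {f : Ω → E → F}
    (hf : Measurable fun p : Ω × E => f p.1 p.2) (hd : ∀ w, Differentiable ℝ (f w)) (e : E) :
    Measurable fun p : Ω × E => fderiv ℝ (f p.1) p.2 e := by
  have h1 : ∀ n : ℕ, Measurable fun p : Ω × E =>
      ((n : ℝ) + 1) • (f p.1 (p.2 + ((n : ℝ) + 1)⁻¹ • e) - f p.1 p.2) := by
    intro n
    have h2 : Measurable fun p : Ω × E => (p.1, p.2 + ((n : ℝ) + 1)⁻¹ • e) :=
      measurable_fst.prodMk (measurable_snd.add_const _)
    exact ((hf.comp h2).sub hf).const_smul _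
  refine measurable_of_tendsto_metrizable h1 ?_
  rw [tendsto_pi_nhds]
  intro p
  have h3 : HasFDerivAt (f p.1) (fderiv ℝ (f p.1) p.2) p.2 := (hd p.1 p.2).hasFDerivAt
  have h4 : Tendsto (fun n : ℕ => (n : ℝ) + 1) atTop atTop :=
    tendsto_atTop_add_const_right _ _ tendsto_natCast_atTop_atTop
  have h5 := h3.lim e (c := fun n : ℕ => (n : ℝ) + 1) (l := atTop)
    (by
      simp only [Real.norm_eq_abs]
      exact tendsto_abs_atTop_atTop.comp h4)
  simpa using h5

/-- Continuous operations. -/
theorem meas_cont {A B C : Type} [TopologicalSpace A] [MeasurableSpace A] [BorelSpace A]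
    [TopologicalSpace B] [MeasurableSpace B] [BorelSpace B] {g : A → B} (hg : Continuous g)
    [MeasurableSpace C] {f : C → A} (hf : Measurable f) : Measurable fun c => g (f c) :=
  hg.measurable.comp hf

end BM73
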