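import Pool.Agent.LibBM73.M0

/-! The gradient of the squared distance. -/

open MeasureTheory Set Filter Topology
open scoped ContDiff

namespace BM73

open BGS BR

variable {Γ : Type} [Group Γ] [MulAction Γ Pl] {D : Set Pl}

theorem Vx_grad (hX : Surface Γ D) {m : Pl → Co} (hm : HM Γ m) (x y w : Pl) :
    fderiv ℝ (fun z => eu (Vx m z y) ^ 2) x (fr (m x) w) = -2 * ip (Vx m x y) w := by
  have e0 : (fun z => eu (Vx m z y) ^ 2) = fun z => (Vx m y z).1 ^ 2 + (Vx m y z).2 ^ 2 := by
    funext z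
    rw [eu_Vx_comm hX hm z y, H1h_eu_sq]
  set g : Pl → ℝ := fun z => (Vx m y z).1 ^ 2 + (Vx m y z).2 ^ 2 with hg
  have hV : ContDiff ℝ ∞ fun z : Pl => Vx m y z :=
    (Vx_smooth hX hm).comp (contDiff_const.prodMk contDiff_id)
  have hgs : Differentiable ℝ g := by
    have h1 : ContDiff ℝ ∞ g := (hV.fst.pow 2).add (hV.snd.pow 2)
    exact h1.differentiable (by simp)
  rw [e0]
  set v := Vx m y x with hv
  have hx : Ex m y v = x := Ex_Vx hX hm y x
  have key : ∀ w' : Pl, fderiv ℝ g x (fderiv ℝ (Ex m y) v w') = 2 * ip v w' := by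
    intro w'
    have h1 : HasFDerivAt (fun u : Pl => g (Ex m y u))
        ((fderiv ℝ g x).comp (fderiv ℝ (Ex m y) v)) v := by
      have h2 : HasFDerivAt g (fderiv ℝ g x) (Ex m y v) := by
        rw [hx]
        exact (hgs x).hasFDerivAt
      exact h2.comp v ((H1h_diffE hX hm y) v).hasFDerivAt
    have h3 : (fun u : Pl => g (Ex m y u)) = fun u : Pl => u.1 ^ 2 + u.2 ^ 2 := by
      funext u
      simp only [hg]
      rw [Vx_Ex hX hm]
    rw [h3] at h1
    have h4 : HasFDerivAt (fun u : Pl => u.1 ^ 2 + u.2 ^ 2)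
        ((2 * v.1) • ContinuousLinearMap.fst ℝ ℝ ℝ + (2 * v.2) • ContinuousLinearMap.snd ℝ ℝ ℝ)
        v := by
      have h5 := (hasFDerivAt_fst (𝕜 := ℝ) (E := ℝ) (F := ℝ) (p := v)).pow 2
      have h6 := (hasFDerivAt_snd (𝕜 := ℝ) (E := ℝ) (F := ℝ) (p := v)).pow 2
      refine (h5.add h6).congr_fderiv ?_
      ext <;> simp
    have h7 := congrArg (fun A : Pl →L[ℝ] ℝ => A w') (h1.unique h4)
    simp only [ContinuousLinearMap.comp_apply, ContinuousLinearMap.add_apply,
      ContinuousLinearMap.smul_apply, ContinuousLinearMap.coe_fst', ContinuousLinearMap.coe_snd',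
      smul_eq_mul] at h7
    rw [h7]
    unfold ip
    ring
  have hrev : Vx m x y = -(gfl m 1 (y, v)).2 := by
    have := Vx_rev hX hm y v
    rwa [hx] at this
  rcases eq_or_ne v 0 with h0 | h0
  · have hxy : x = y := by
      rw [← hx, h0, Ex_zero hX hm]
    have h1 := key w
    rw [h0, Ex_fderiv_zero hX hm, ← hxy] at h1
    rw [h1, ← hxy, Vx_self hX hm]
    simp [ip]
  · obtain ⟨r, u, hr, hu, hvu⟩ := H1h_polar h0
    set V := (gfl m r (y, u)).2 with hVd
    have hVe : eu V = 1 := by rw [hVd, gfl_eu hX hm]; exact hu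
    have hJ : 0 < JB m y u r := hr.trans_le (JB_ge hX hm hu hr.le).1
    set c := JB m y u r / r with hc
    have hc0 : 0 < c := div_pos hJ hr
    have hu2 := H1h_unit hu
    set w' : Pl := ip V w • u + (wd V w / c) • rot u with hw'
    have i1 : ip u w' = ip V w := by
      rw [hw']
      simp only [ip, rot, Prod.fst_add, Prod.snd_add, Prod.smul_fst, Prod.smul_snd, smul_eq_mul]
      linear_combination (V.1 * w.1 + V.2 * w.2) * hu2
    have i2 : wd u w' = wd V w / c := by
      rw [hw']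
      simp only [ip, wd, rot, Prod.fst_add, Prod.snd_add, Prod.smul_fst, Prod.smul_snd,
        smul_eq_mul]
      linear_combination ((V.1 * w.2 - V.2 * w.1) / c) * hu2
    have h1 := key w'
    rw [hvu, Ex_fderiv hX hm hu hr.ne', ← hvu, hx, i1, ← hVd, ← hc, i2,
      mul_div_cancel₀ _ hc0.ne', ← H1h_split hVe w] at h1
    rw [h1, hrev, hvu, gfl_homog hX hm, mul_one, ← hVd]
    have i3 : ip (r • u) w' = r * ip V w := by
      rw [← i1]
      simp only [ip, Prod.smul_fst, Prod.smul_snd, smul_eq_mul]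
      ring
    rw [i3]
    simp only [ip, Prod.fst_neg, Prod.snd_neg, Prod.smul_fst, Prod.smul_snd, smul_eq_mul]
    ring

/-- The normal coordinates from the distances. -/
theorem Vx_eq (hX : Surface Γ D) {m : Pl → Co} (hm : HM Γ m) (x y : Pl) :
    Vx m x y = ((-1 / 2) * fderiv ℝ (fun z => eu (Vx m z y) ^ 2) x (fr1 (m x)),
      (-1 / 2) * fderiv ℝ (fun z => eu (Vx m z y) ^ 2) x (fr2 (m x))) := by
  have h1 : fr1 (m x) = fr (m x) (1, 0) := by
    unfold fr
    simp
  have h2 : fr2 (m x) = fr (m x) (0, 1) := by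
    unfold fr
    simp
  rw [h1, h2, Vx_grad hX hm, Vx_grad hX hm]
  unfold ip
  refine Prod.ext ?_ ?_
  · simp
    ring
  · simp
    ring

end BM73
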