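import Pool.Agent.LibBM73.M1

/-! Measurability of the normal coordinates and of the exponential map in a parameter. -/

open MeasureTheory Set Filter Topology
open scoped ContDiff

namespace BM73

open BGS BR

/-- A family of metrics of negative curvature whose coefficients and distances are measurable. -/
structure MF {Ω : Type} [MeasurableSpace Ω] (Γ : Type) [Group Γ] [MulAction Γ Pl]
    (M : Ω → Pl → Co) : Prop where
  hm : ∀ w, HM Γ (M w)
  meas : Measurable fun p : Ω × Pl => M p.1 p.2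
  dist : Measurable fun p : Ω × Pl × Pl => eu (Vx (M p.1) p.2.1 p.2.2)

variable {Ω : Type} [MeasurableSpace Ω] {Γ : Type} [Group Γ] [MulAction Γ Pl] {D : Set Pl}
  {M : Ω → Pl → Co}

theorem meas_fr1 (h : MF Γ M) : Measurable fun p : Ω × Pl => fr1 (M p.1 p.2) := by
  have h1 : Measurable fun p : Ω × Pl => (M p.1 p.2).1 := h.meas.fst
  unfold fr1
  exact ((measurable_const.div (h1.sqrt))).prodMk measurable_const

theorem meas_dt (h : MF Γ M) : Measurable fun p : Ω × Pl => dt (M p.1 p.2) := by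
  have h1 : Measurable fun p : Ω × Pl => (M p.1 p.2).1 := h.meas.fst
  have h2 : Measurable fun p : Ω × Pl => (M p.1 p.2).2.1 := h.meas.snd.fst
  have h3 : Measurable fun p : Ω × Pl => (M p.1 p.2).2.2 := h.meas.snd.snd
  unfold dt
  fun_prop

theorem meas_fr2 (h : MF Γ M) : Measurable fun p : Ω × Pl => fr2 (M p.1 p.2) := by
  have h1 : Measurable fun p : Ω × Pl => (M p.1 p.2).1 := h.meas.fst
  have h2 : Measurable fun p : Ω × Pl => (M p.1 p.2).2.1 := h.meas.snd.fst
  have h3 := meas_dt h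
  unfold fr2
  exact ((h2.div (h1.sqrt.mul h3.sqrt)).neg).prodMk (h1.sqrt.div h3.sqrt)

/-- The normal coordinates. -/
theorem meas_Vx (hX : Surface Γ D) (h : MF Γ M) :
    Measurable fun p : Ω × Pl × Pl => Vx (M p.1) p.2.1 p.2.2 := by
  have hf : Measurable fun q : (Ω × Pl) × Pl => eu (Vx (M q.1.1) q.2 q.1.2) ^ 2 := by
    have h1 : Measurable fun q : (Ω × Pl) × Pl => ((q.1.1, (q.2, q.1.2)) : Ω × Pl × Pl) := by
      fun_prop
    exact (h.dist.comp h1).pow_const 2
  have hd : ∀ w : Ω × Pl, Differentiable ℝ fun z : Pl => eu (Vx (M w.1) z w.2) ^ 2 := by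
    intro w
    have h1 : ContDiff ℝ ∞ fun z : Pl => Vx (M w.1) z w.2 :=
      (Vx_smooth hX (h.hm w.1)).comp (contDiff_id.prodMk contDiff_const)
    have h2 : ContDiff ℝ ∞ fun z : Pl => eu (Vx (M w.1) z w.2) ^ 2 := by
      have e : (fun z : Pl => eu (Vx (M w.1) z w.2) ^ 2) =
          fun z => (Vx (M w.1) z w.2).1 ^ 2 + (Vx (M w.1) z w.2).2 ^ 2 := by
        funext z
        exact H1h_eu_sq _
      rw [e]
      exact (h1.fst.pow 2).add (h1.snd.pow 2)
    exact h2.differentiable (by simp)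
  have hD : ∀ e : Pl, Measurable fun p : Ω × Pl × Pl =>
      fderiv ℝ (fun z => eu (Vx (M p.1) z p.2.2) ^ 2) p.2.1 e := by
    intro e
    set g : (Ω × Pl) × Pl → ℝ := fun q =>
      fderiv ℝ (fun z : Pl => eu (Vx (M q.1.1) z q.1.2) ^ 2) q.2 e with hg
    have h1 : Measurable g :=
      meas_deriv (f := fun w : Ω × Pl => fun z : Pl => eu (Vx (M w.1) z w.2) ^ 2) hf hd e
    have h2 : Measurable fun p : Ω × Pl × Pl => (((p.1, p.2.2), p.2.1) : (Ω × Pl) × Pl) := by
      fun_prop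
    have h3 := h1.comp h2
    exact h3
  have hlin : ∀ (p : Ω × Pl × Pl) (e : Pl),
      fderiv ℝ (fun z => eu (Vx (M p.1) z p.2.2) ^ 2) p.2.1 e =
        e.1 * fderiv ℝ (fun z => eu (Vx (M p.1) z p.2.2) ^ 2) p.2.1 (1, 0) +
        e.2 * fderiv ℝ (fun z => eu (Vx (M p.1) z p.2.2) ^ 2) p.2.1 (0, 1) := fun p e =>
    H1b_lin _ e
  have hpr : Measurable fun p : Ω × Pl × Pl => ((p.1, p.2.1) : Ω × Pl) := by fun_prop
  have k1 := (meas_fr1 h).comp hpr
  have k2 := (meas_fr2 h).comp hpr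
  have e1 : (fun p : Ω × Pl × Pl => Vx (M p.1) p.2.1 p.2.2) = fun p =>
      ((-1 / 2) * ((fr1 (M p.1 p.2.1)).1 *
          fderiv ℝ (fun z => eu (Vx (M p.1) z p.2.2) ^ 2) p.2.1 (1, 0) +
        (fr1 (M p.1 p.2.1)).2 * fderiv ℝ (fun z => eu (Vx (M p.1) z p.2.2) ^ 2) p.2.1 (0, 1)),
       (-1 / 2) * ((fr2 (M p.1 p.2.1)).1 *
          fderiv ℝ (fun z => eu (Vx (M p.1) z p.2.2) ^ 2) p.2.1 (1, 0) +
        (fr2 (M p.1 p.2.1)).2 * fderiv ℝ (fun z => eu (Vx (M p.1) z p.2.2) ^ 2) p.2.1 (0, 1))) := by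
    funext p
    rw [Vx_eq hX (h.hm p.1) p.2.1 p.2.2, hlin p (fr1 (M p.1 p.2.1)), hlin p (fr2 (M p.1 p.2.1))]
  rw [e1]
  exact (((k1.fst.mul (hD _)).add (k1.snd.mul (hD _))).const_mul _).prodMk
    (((k2.fst.mul (hD _)).add (k2.snd.mul (hD _))).const_mul _)

/-- The inverse of a measurable family of homeomorphisms. -/
theorem meas_inv {A : Type} [MeasurableSpace A] {V : A → Pl → Pl} {E : A → Pl → Pl}
    (hV : ∀ y, Measurable fun a => V a y) (hc : ∀ a, Continuous (V a))
    (hE : ∀ a, Continuous (E a)) (h1 : ∀ a y, E a (V a y) = y) (h2 : ∀ a v, V a (E a v) = v) :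
    Measurable fun p : A × Pl => E p.1 p.2 := by
  classical
  set s : ℕ → Pl := TopologicalSpace.denseSeq Pl with hs
  have hex : ∀ (n : ℕ) (p : A × Pl), ∃ k, dist (V p.1 (s k)) p.2 < 1 / ((n : ℝ) + 1) := by
    intro n p
    have h3 : Dense (Set.range s) := TopologicalSpace.denseRange_denseSeq Pl
    have h4 : IsOpen {y : Pl | dist (V p.1 y) p.2 < 1 / ((n : ℝ) + 1)} :=
      isOpen_lt (((hc p.1)).dist continuous_const) continuous_const
    obtain ⟨y, hy, k, hk⟩ := h3.inter_open_nonempty _ h4 ⟨E p.1 p.2, by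
      show dist (V p.1 (E p.1 p.2)) p.2 < _
      rw [h2, dist_self]
      positivity⟩
    exact ⟨k, by rw [hk]; exact hy⟩
  have hm : ∀ n : ℕ, Measurable fun p : A × Pl => s (Nat.find (hex n p)) := by
    intro n
    have h3 : Measurable fun p : A × Pl => Nat.find (hex n p) := by
      refine measurable_find _ fun k => ?_
      exact measurableSet_lt (((hV (s k)).comp measurable_fst).dist measurable_snd)
        measurable_const
    exact (measurable_from_nat (f := s)).comp h3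
  refine measurable_of_tendsto_metrizable hm ?_
  rw [tendsto_pi_nhds]
  intro p
  have h3 : Tendsto (fun n : ℕ => V p.1 (s (Nat.find (hex n p)))) atTop (𝓝 p.2) := by
    rw [tendsto_iff_dist_tendsto_zero]
    refine squeeze_zero (fun n => dist_nonneg) (fun n => (Nat.find_spec (hex n p)).le) ?_
    exact tendsto_one_div_add_atTop_nhds_zero_nat
  have h4 := ((hE p.1).tendsto p.2).comp h3
  refine h4.congr fun n => ?_
  exact h1 p.1 _

/-- The exponential map. -/
theorem meas_Ex (hX : Surface Γ D) (h : MF Γ M) :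
    Measurable fun p : Ω × Pl × Pl => Ex (M p.1) p.2.1 p.2.2 := by
  have h1 := meas_inv (A := Ω × Pl) (V := fun a => Vx (M a.1) a.2) (E := fun a => Ex (M a.1) a.2)
    (fun y => by
      have h2 : Measurable fun a : Ω × Pl => ((a.1, (a.2, y)) : Ω × Pl × Pl) := by fun_prop
      exact (meas_Vx hX h).comp h2)
    (fun a => ((Vx_smooth hX (h.hm a.1)).comp (contDiff_const.prodMk contDiff_id)).continuous)
    (fun a => ((Ex_smooth hX (h.hm a.1)).comp (contDiff_const.prodMk contDiff_id)).continuous)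
    (fun a y => Ex_Vx hX (h.hm a.1) a.2 y) (fun a v => Vx_Ex hX (h.hm a.1) a.2 v)
  have h2 : Measurable fun p : Ω × Pl × Pl => (((p.1, p.2.1), p.2.2) : (Ω × Pl) × Pl) := by
    fun_prop
  exact h1.comp h2

end BM73
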