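import Pool.Agent.LibBM73.M2
import Pool.Agent.LibTR29.T1

/-! Measurability of the coefficients of the parametrix in a parameter. -/

open MeasureTheory Set Filter Topology
open scoped ContDiff

namespace BM73

open BGS BR

section

variable {A : Type} [MeasurableSpace A]

theorem meas_dx {F : A → Pl → ℝ} (hF : Measurable fun p : A × Pl => F p.1 p.2)
    (hs : ∀ a, ContDiff ℝ ∞ (F a)) : Measurable fun p : A × Pl => dx (F p.1) p.2 := by
  have h1 := meas_deriv (f := F) hF (fun a => (hs a).differentiable (by simp)) (1, 0)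
  exact h1

theorem meas_dy {F : A → Pl → ℝ} (hF : Measurable fun p : A × Pl => F p.1 p.2)
    (hs : ∀ a, ContDiff ℝ ∞ (F a)) : Measurable fun p : A × Pl => dy (F p.1) p.2 := by
  have h1 := meas_deriv (f := F) hF (fun a => (hs a).differentiable (by simp)) (0, 1)
  exact h1

variable {G : A → Pl → Co}

theorem meas_wt (hG : Measurable fun p : A × Pl => G p.1 p.2) :
    Measurable fun p : A × Pl => wt (G p.1) p.2 := by
  have h1 : Measurable fun p : A × Pl => (G p.1 p.2).1 := hG.fst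
  have h2 : Measurable fun p : A × Pl => (G p.1 p.2).2.1 := hG.snd.fst
  have h3 : Measurable fun p : A × Pl => (G p.1 p.2).2.2 := hG.snd.snd
  unfold wt dt
  fun_prop

theorem meas_LL (hG : Measurable fun p : A × Pl => G p.1 p.2) (hP : ∀ a, PMt (G a))
    {u : A → Pl → ℝ} (hu : Measurable fun p : A × Pl => u p.1 p.2)
    (hs : ∀ a, ContDiff ℝ ∞ (u a)) : Measurable fun p : A × Pl => LL (G p.1) (u p.1) p.2 := by
  have h1 : Measurable fun p : A × Pl => (G p.1 p.2).1 := hG.fst
  have h2 : Measurable fun p : A × Pl => (G p.1 p.2).2.1 := hG.snd.fst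
  have h3 : Measurable fun p : A × Pl => (G p.1 p.2).2.2 := hG.snd.snd
  have hw := meas_wt hG
  have kx := meas_dx hu hs
  have ky := meas_dy hu hs
  have hXm : Measurable fun p : A × Pl => PX1_X (G p.1) (u p.1) p.2 := by
    unfold PX1_X
    exact ((h3.mul kx).sub (h2.mul ky)).div hw
  have hYm : Measurable fun p : A × Pl => PX1_Y (G p.1) (u p.1) p.2 := by
    unfold PX1_Y
    exact ((h1.mul ky).sub (h2.mul kx)).div hw
  have e : (fun p : A × Pl => LL (G p.1) (u p.1) p.2) = fun p =>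
      (dx (PX1_X (G p.1) (u p.1)) p.2 + dy (PX1_Y (G p.1) (u p.1)) p.2) / wt (G p.1) p.2 := by
    funext p
    exact PX1_LL _ _ _
  rw [e]
  exact ((meas_dx (F := fun a => PX1_X (G a) (u a)) hXm fun a => PX1_X_smooth (hP a) (hs a)).add
    (meas_dy (F := fun a => PX1_Y (G a) (u a)) hYm fun a => PX1_Y_smooth (hP a) (hs a))).div hw

theorem meas_radial {Q : A → Pl → ℝ} (hQ : Measurable fun p : A × Pl => Q p.1 p.2) (j : ℕ) :
    Measurable fun p : A × Pl => ∫ s in (0 : ℝ)..1, s ^ j * Q p.1 (s • p.2) := by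
  have h1 : Measurable fun q : (A × Pl) × ℝ => q.2 ^ j * Q q.1.1 (q.2 • q.1.2) := by
    have h2 : Measurable fun q : (A × Pl) × ℝ => ((q.1.1, q.2 • q.1.2) : A × Pl) := by fun_prop
    exact (measurable_snd.pow_const j).mul (hQ.comp h2)
  have h3 : StronglyMeasurable fun p : A × Pl =>
      ∫ s, (s ^ j * Q p.1 (s • p.2)) ∂(volume.restrict (Ioc (0 : ℝ) 1)) :=
    StronglyMeasurable.integral_prod_right' (f := fun q : (A × Pl) × ℝ =>
      q.2 ^ j * Q q.1.1 (q.2 • q.1.2)) h1.stronglyMeasurable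
  have e : (fun p : A × Pl => ∫ s in (0 : ℝ)..1, s ^ j * Q p.1 (s • p.2)) = fun p =>
      ∫ s, (s ^ j * Q p.1 (s • p.2)) ∂(volume.restrict (Ioc (0 : ℝ) 1)) := by
    funext p
    exact intervalIntegral.integral_of_le zero_le_one
  rw [e]
  exact h3.measurable

theorem meas_UU' (hG : Measurable fun p : A × Pl => G p.1 p.2) (hP : ∀ a, PMt (G a)) (j : ℕ) :
    Measurable fun p : A × Pl => UU (G p.1) j p.2 := by
  have hw : Measurable fun p : A × Pl => wt (G p.1) p.2 ^ (-(1 / 2) : ℝ) :=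
    (meas_wt hG).pow_const _
  induction j with
  | zero => exact hw
  | succ j ih =>
    have h1 := meas_LL hG hP (u := fun a => UU (G a) j) ih fun a => UU_smooth1 (hP a) j
    have h2 : Measurable fun p : A × Pl => PX2_Q (G p.1) j p.2 := by
      unfold PX2_Q
      exact h1.div (hw.const_mul 4)
    have h3 := meas_radial (Q := fun a => PX2_Q (G a) j) h2 j
    exact hw.mul h3

end

variable {Ω : Type} [MeasurableSpace Ω] {Γ : Type} [Group Γ] [MulAction Γ Pl] {D : Set Pl}
  {M : Ω → Pl → Co}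

theorem meas_mE (hX : Surface Γ D) (h : MF Γ M) :
    Measurable fun p : (Ω × Pl) × Pl => Gx (M p.1.1) p.1.2 p.2 := by
  have h0 : Measurable fun p : (Ω × Pl) × Pl => ((p.1.1, p.1.2, p.2) : Ω × Pl × Pl) := by
    fun_prop
  have hE : Measurable fun p : (Ω × Pl) × Pl => Ex (M p.1.1) p.1.2 p.2 := (meas_Ex hX h).comp h0
  have hd : ∀ a : Ω × Pl, Differentiable ℝ (Ex (M a.1) a.2) := fun a => H1h_diffE hX (h.hm a.1) a.2
  have hA : ∀ e : Pl, Measurable fun p : (Ω × Pl) × Pl => fderiv ℝ (Ex (M p.1.1) p.1.2) p.2 e :=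
    fun e => by
      have h1 := meas_deriv (f := fun a : Ω × Pl => Ex (M a.1) a.2) hE hd e
      exact h1
  have h1 : Measurable fun p : (Ω × Pl) × Pl => ((p.1.1, Ex (M p.1.1) p.1.2 p.2) : Ω × Pl) :=
    (measurable_fst.comp measurable_fst).prodMk hE
  have hM : Measurable fun p : (Ω × Pl) × Pl => M p.1.1 (Ex (M p.1.1) p.1.2 p.2) :=
    h.meas.comp h1
  have hb : ∀ e e' : Pl, Measurable fun p : (Ω × Pl) × Pl => bf (M p.1.1 (Ex (M p.1.1) p.1.2 p.2))
      (fderiv ℝ (Ex (M p.1.1) p.1.2) p.2 e) (fderiv ℝ (Ex (M p.1.1) p.1.2) p.2 e') := by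
    intro e e'
    have a1 := hM.fst
    have a2 := hM.snd.fst
    have a3 := hM.snd.snd
    have b1 := (hA e).fst
    have b2 := (hA e).snd
    have c1 := (hA e').fst
    have c2 := (hA e').snd
    unfold bf
    exact (((a1.mul b1).mul c1).add (a2.mul ((b1.mul c2).add (b2.mul c1)))).add
      ((a3.mul b2).mul c2)
  exact (hb (1, 0) (1, 0)).prodMk ((hb (1, 0) (0, 1)).prodMk (hb (0, 1) (0, 1)))

/-- The area density in normal coordinates. -/
theorem meas_wtG (hX : Surface Γ D) (h : MF Γ M) :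
    Measurable fun p : (Ω × Pl) × Pl => wt (Gx (M p.1.1) p.1.2) p.2 :=
  meas_wt (G := fun a : Ω × Pl => Gx (M a.1) a.2) (meas_mE hX h)

/-- The coefficients of the parametrix. -/
theorem meas_UU (hX : Surface Γ D) (h : MF Γ M) (j : ℕ) :
    Measurable fun p : (Ω × Pl) × Pl => UU (Gx (M p.1.1) p.1.2) j p.2 :=
  meas_UU' (G := fun a : Ω × Pl => Gx (M a.1) a.2) (meas_mE hX h)
    (fun a => Gx_PMt hX (h.hm a.1) a.2) j

end BM73
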