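import Pool.Agent.LibBM73.M3

/-! Measurability of the kernels of the parametrix in a parameter. -/

open MeasureTheory Set Filter Topology
open scoped ContDiff

namespace BM73

open BGS BR

theorem osc_cont {a : ℝ → ℂ} (ha : ContDiff ℝ ∞ a) : Continuous fun p : ℝ × ℝ => osc a p.1 p.2 := by
  unfold osc
  have h1 : Continuous a := ha.continuous
  fun_prop

theorem osc_sm {a : ℝ → ℂ} (ha : ContDiff ℝ ∞ a) (τ : ℝ) : ContDiff ℝ ∞ (osc a τ) := by
  unfold osc
  have h1 : ContDiff ℝ ∞ fun t : ℝ => Complex.exp (-(Complex.I * τ * t)) * a t := by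
    refine ContDiff.mul ?_ ha
    refine ContDiff.cexp ?_
    exact (contDiff_const.mul Complex.ofRealCLM.contDiff).neg
  exact Complex.reCLM.contDiff.comp h1

theorem meas_dosc {a : ℝ → ℂ} (ha : ContDiff ℝ ∞ a) :
    Measurable fun p : ℝ × ℝ => deriv (osc a p.1) p.2 := by
  have h1 := meas_deriv (f := osc a) (osc_cont ha).measurable
    (fun τ => (osc_sm ha τ).differentiable (by simp)) (1 : ℝ)
  have e : (fun p : ℝ × ℝ => deriv (osc a p.1) p.2) = fun p =>
      fderiv ℝ (osc a p.1) p.2 1 := by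
    funext p
    exact (fderiv_apply_one_eq_deriv).symm
  rw [e]
  exact h1

/-- The Abel transforms of the oscillating functions. -/
theorem meas_Ab {a : ℝ → ℂ} (ha : ContDiff ℝ ∞ a) (j : ℕ) :
    Measurable fun p : ℝ × ℝ => Ab j (osc a p.1) p.2 := by
  have h1 : Measurable fun q : (ℝ × ℝ) × ℝ =>
      Pq (osc a q.1.1) (q.1.2 + q.2) * q.2 ^ ((j : ℝ) - 1 / 2) := by
    have h2 : Measurable fun q : (ℝ × ℝ) × ℝ => ((q.1.1, √(q.1.2 + q.2)) : ℝ × ℝ) := by fun_prop
    have h3 : Measurable fun q : (ℝ × ℝ) × ℝ => deriv (osc a q.1.1) (√(q.1.2 + q.2)) :=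
      (meas_dosc ha).comp h2
    have h4 : Measurable fun q : (ℝ × ℝ) × ℝ => 2 * √(q.1.2 + q.2) := by fun_prop
    unfold Pq
    exact (h3.div h4).mul (measurable_snd.pow_const _)
  have h2 : StronglyMeasurable fun p : ℝ × ℝ =>
      ∫ v, (Pq (osc a p.1) (p.2 + v) * v ^ ((j : ℝ) - 1 / 2)) ∂(volume.restrict (Ioi (0 : ℝ))) :=
    StronglyMeasurable.integral_prod_right' (f := fun q : (ℝ × ℝ) × ℝ =>
      Pq (osc a q.1.1) (q.1.2 + q.2) * q.2 ^ ((j : ℝ) - 1 / 2)) h1.stronglyMeasurable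
  unfold BR.Ab FI
  exact (h2.measurable.div_const _).neg

variable {Ω : Type} [MeasurableSpace Ω] {Γ : Type} [Group Γ] [MulAction Γ Pl] {D : Set Pl}
  {M : Ω → Pl → Co}

theorem meas_KK (hX : Surface Γ D) (h : MF Γ M) (N : ℕ) {a : ℝ → ℂ} (ha : ContDiff ℝ ∞ a)
    {C : Type} [MeasurableSpace C] {w : C → Ω} {x v : C → Pl} {t : C → ℝ} (hw : Measurable w)
    (hx : Measurable x) (hv : Measurable v) (ht : Measurable t) :
    Measurable fun c => KK (Gx (M (w c)) (x c)) N (osc a (t c)) (v c) := by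
  unfold KK
  refine Finset.measurable_sum _ fun j _ => ?_
  have h1 : Measurable fun c => (((w c, x c), v c) : (Ω × Pl) × Pl) :=
    (hw.prodMk hx).prodMk hv
  have h2 : Measurable fun c => ((t c, sg (v c)) : ℝ × ℝ) := by
    refine ht.prodMk ?_
    unfold sg
    have h3 := hv.fst
    have h4 := hv.snd
    fun_prop
  have h3 := (meas_UU hX h j).comp h1
  have h4 := (meas_Ab ha j).comp h2
  have h5 := h3.mul h4
  exact h5

/-- The displacement of a point. -/
theorem meas_disp (hX : Surface Γ D) (h : MF Γ M) (γ : Γ) :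
    Measurable fun p : Ω × Pl => Vx (M p.1) p.2 (γ • p.2) := by
  have h1 : Measurable fun z : Pl => γ • z := (hX.smooth γ).continuous.measurable
  have h2 : Measurable fun p : Ω × Pl => ((p.1, p.2, γ • p.2) : Ω × Pl × Pl) :=
    measurable_fst.prodMk (measurable_snd.prodMk (h1.comp measurable_snd))
  exact (meas_Vx hX h).comp h2

/-- The kernel on the graph of `γ`, with the frequency as a variable. -/
theorem meas_Kg (hX : Surface Γ D) (h : MF Γ M) (N : ℕ) {a : ℝ → ℂ} (ha : ContDiff ℝ ∞ a)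
    (γ : Γ) : Measurable fun p : (Ω × Pl) × ℝ =>
      KK (Gx (M p.1.1) p.1.2) N (osc a p.2) (Vx (M p.1.1) p.1.2 (γ • p.1.2)) :=
  meas_KK hX h N ha (measurable_fst.comp measurable_fst) (measurable_snd.comp measurable_fst)
    ((meas_disp hX h γ).comp measurable_fst) measurable_snd

/-- The coefficients on the graph of `γ`. -/
theorem meas_Ug (hX : Surface Γ D) (h : MF Γ M) (j : ℕ) (γ : Γ) : Measurable fun p : Ω × Pl =>
    UU (Gx (M p.1) p.2) j (Vx (M p.1) p.2 (γ • p.2)) := by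
  have h1 : Measurable fun p : Ω × Pl =>
      (((p.1, p.2), Vx (M p.1) p.2 (γ • p.2)) : (Ω × Pl) × Pl) :=
    (measurable_fst.prodMk measurable_snd).prodMk (meas_disp hX h γ)
  exact (meas_UU hX h j).comp h1

end BM73
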