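import Pool.Agent.LibBM73.M4
import Pool.Agent.LibBGM20.E1
import Pool.Agent.LibBGM20.E3
import Pool.Agent.LibGD33.Defs

/-! Measurability for the random family of metrics. -/

open MeasureTheory Set Filter Topology
open scoped ContDiff unitInterval

namespace BM73

open BGS BR
open BGM (Cx mx ex ps Rp Iv Had D2_rp D2_iv D2_smooth E1_neg E1_curv E2_cont E3_ds ps_cont)
open Pool.BGR (PM upI pj)

/-- The parameters for which the curvature is negative. -/
def Neg (Γ : Type) [Group Γ] [MulAction Γ Pl] (m : Pl → Co) (ψ : Pl → ℝ) (L : ℕ) (c : ℕ → ℝ) :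
    Set (Dir → I) := {ξ | ∀ z, curv (mx Γ m ψ L c ξ) z < 0}

variable {Γ : Type} [Group Γ] [MulAction Γ Pl] {D : Set Pl} {m : Pl → Co} {ψ : Pl → ℝ} {L : ℕ}
  {c : ℕ → ℝ}

theorem meas_Neg (h : Cx Γ D m ψ L c) : MeasurableSet (Neg Γ m ψ L c) := E1_neg h

/-- The metrics with curvature at most `κ` everywhere. -/
theorem meas_low (h : Cx Γ D m ψ L c) (κ : ℝ) :
    MeasurableSet {ξ : Dir → I | ∀ z, curv (mx Γ m ψ L c ξ) z ≤ κ} := by
  obtain ⟨s, hsc, hsd⟩ := TopologicalSpace.exists_countable_dense Pl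
  have key : {ξ : Dir → I | ∀ z, curv (mx Γ m ψ L c ξ) z ≤ κ} =
      ⋂ z ∈ s, {ξ : Dir → I | curv (mx Γ m ψ L c ξ) z ≤ κ} := by
    ext ξ
    have hc : Continuous (curv (mx Γ m ψ L c ξ)) := E2_cont (D2_rp h ξ)
    simp only [mem_iInter]
    constructor
    · intro h1 z _
      exact h1 z
    · intro h1 z
      have hclosed : IsClosed {y : Pl | curv (mx Γ m ψ L c ξ) y ≤ κ} :=
        isClosed_le hc continuous_const
      have h2 : z ∈ closure s := hsd z
      exact closure_minimal (fun y hy => h1 y hy) hclosed h2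
  rw [key]
  exact MeasurableSet.biInter hsc fun z _ => measurableSet_le (E1_curv h z) measurable_const

theorem mx_HM (h : Cx Γ D m ψ L c) {ξ : Dir → I} (hξ : ξ ∈ Neg Γ m ψ L c) :
    HM Γ (mx Γ m ψ L c ξ) where
  smooth := (D2_rp h ξ).smooth
  pos := (D2_rp h ξ).pos
  inv := D2_iv h ξ
  neg := hξ

theorem cont_ex (h : Cx Γ D m ψ L c) :
    Continuous fun p : (Dir → I) × Pl => ex Γ ψ L c p.1 p.2 := by
  rw [continuous_iff_continuousAt]
  rintro ⟨ξ₀, z₀⟩
  rw [ContinuousAt, Metric.tendsto_nhds]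
  intro ε hε
  have hψ : Continuous ψ := h.psi.1.continuous
  have hp : Continuous (ex Γ ψ L c ξ₀) := (D2_smooth h ξ₀).1.continuous
  have h1 : ∀ᶠ p : (Dir → I) × Pl in 𝓝 (ξ₀, z₀), ∀ z, |ps Γ L c p.1 z - ps Γ L c ξ₀ z| ≤ ε / 3 :=
    (continuous_fst.tendsto (ξ₀, z₀)).eventually (ps_cont h.hX L h.cs ξ₀ (by positivity))
  have h2 : ∀ᶠ p : (Dir → I) × Pl in 𝓝 (ξ₀, z₀),
      dist (ex Γ ψ L c ξ₀ p.2) (ex Γ ψ L c ξ₀ z₀) < ε / 3 := by
    have h3 : Tendsto (fun p : (Dir → I) × Pl => ex Γ ψ L c ξ₀ p.2) (𝓝 (ξ₀, z₀))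
        (𝓝 (ex Γ ψ L c ξ₀ z₀)) := (hp.tendsto z₀).comp (continuous_snd.tendsto (ξ₀, z₀))
    exact (Metric.tendsto_nhds.1 h3) _ (by positivity)
  filter_upwards [h1, h2] with p hp1 hp2
  have h4 : dist (ex Γ ψ L c p.1 p.2) (ex Γ ψ L c ξ₀ p.2) ≤ ε / 3 := by
    rw [Real.dist_eq]
    unfold ex
    have := hp1 p.2
    rwa [add_sub_add_left_eq_sub]
  have h5 := dist_triangle (ex Γ ψ L c p.1 p.2) (ex Γ ψ L c ξ₀ p.2) (ex Γ ψ L c ξ₀ z₀)
  show dist (ex Γ ψ L c p.1 p.2) (ex Γ ψ L c ξ₀ z₀) < ε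
  linarith

theorem cont_mx (h : Cx Γ D m ψ L c) :
    Continuous fun p : (Dir → I) × Pl => mx Γ m ψ L c p.1 p.2 := by
  have h1 : Continuous m := h.rp.smooth.continuous
  have h2 : Continuous fun p : (Dir → I) × Pl => Real.exp (ex Γ ψ L c p.1 p.2) :=
    Real.continuous_exp.comp (cont_ex h)
  exact h2.smul (h1.comp continuous_snd)

theorem ds_eu (hX : Surface Γ D) {m : Pl → Co} (hm : HM Γ m) (x y : Pl) :
    BGM.ds m x y = eu (Vx m x y) := by
  obtain ⟨k, hk⟩ := GD.gd_had hX hm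
  exact BGM.ds_eq hk x y

/-- The random family is a measurable family. -/
theorem MF_mx (h : Cx Γ D m ψ L c) :
    MF Γ (fun w : Neg Γ m ψ L c => mx Γ m ψ L c w.1) where
  hm := fun w => mx_HM h w.2
  meas := by
    have h1 : Measurable fun p : (Dir → I) × Pl => mx Γ m ψ L c p.1 p.2 := (cont_mx h).measurable
    have h2 : Measurable fun p : Neg Γ m ψ L c × Pl => ((p.1.1, p.2) : (Dir → I) × Pl) :=
      (measurable_subtype_coe.comp measurable_fst).prodMk measurable_snd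
    have h3 := h1.comp h2
    exact h3
  dist := by
    have h1 : Measurable fun q : (Dir → I) × Pl × Pl => BGM.ds (mx Γ m ψ L c q.1) q.2.1 q.2.2 :=
      (E3_ds h).measurable
    have h2 : Measurable fun p : Neg Γ m ψ L c × Pl × Pl =>
        ((p.1.1, p.2) : (Dir → I) × Pl × Pl) :=
      (measurable_subtype_coe.comp measurable_fst).prodMk measurable_snd
    have h3 := h1.comp h2
    have e : (fun p : Neg Γ m ψ L c × Pl × Pl => eu (Vx (mx Γ m ψ L c p.1.1) p.2.1 p.2.2)) =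
        (fun q : (Dir → I) × Pl × Pl => BGM.ds (mx Γ m ψ L c q.1) q.2.1 q.2.2) ∘
          fun p : Neg Γ m ψ L c × Pl × Pl => ((p.1.1, p.2) : (Dir → I) × Pl × Pl) := by
      funext p
      exact (ds_eu h.hX (mx_HM h p.1.2) p.2.1 p.2.2).symm
    rw [e]
    exact h3

end BM73
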