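import Pool.Agent.LibBM73.M5

/-! Measurability for continuous families of conformal metrics. -/

open MeasureTheory Set Filter Topology
open scoped ContDiff

namespace BM73

open BGS BR
open BGM (cf Rp Iv Had D1_ds D1_rp D1_iv D1_zero E2_cont E2_form E2_N E2_inv)

/-- A family of conformal metrics whose exponents depend uniformly continuously on the
parameter. -/
structure CF {Ξ : Type} [TopologicalSpace Ξ] (Γ : Type) [Group Γ] [MulAction Γ Pl]
    (m : Pl → Co) (h : Ξ → Pl → ℝ) : Prop where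
  rp : Rp m
  iv : Iv Γ m
  base : ∃ k E V F, Had m k E V F
  test : ∀ ξ, h ξ ∈ Test Γ
  cont : ∀ (ξ₀ : Ξ) (ε : ℝ), 0 < ε → ∀ᶠ ξ in 𝓝 ξ₀, ∀ z, |h ξ z - h ξ₀ z| ≤ ε

variable {Ξ : Type} [TopologicalSpace Ξ] {Γ : Type} [Group Γ] [MulAction Γ Pl] {D : Set Pl}
  {m : Pl → Co} {h : Ξ → Pl → ℝ}

theorem CF.rpx (H : CF Γ m h) (ξ : Ξ) : Rp (cf (h ξ) m) := D1_rp H.rp (H.test ξ).1

theorem CF.ivx (H : CF Γ m h) (ξ : Ξ) : Iv Γ (cf (h ξ) m) := D1_iv H.iv (H.test ξ).2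

theorem CF.hmx (H : CF Γ m h) {ξ : Ξ} (hn : ∀ z, curv (cf (h ξ) m) z < 0) :
    HM Γ (cf (h ξ) m) where
  smooth := (H.rpx ξ).smooth
  pos := (H.rpx ξ).pos
  inv := H.ivx ξ
  neg := hn

theorem CF.cont_h (H : CF Γ m h) : Continuous fun p : Ξ × Pl => h p.1 p.2 := by
  rw [continuous_iff_continuousAt]
  rintro ⟨ξ₀, z₀⟩
  rw [ContinuousAt, Metric.tendsto_nhds]
  intro ε hε
  have hp : Continuous (h ξ₀) := (H.test ξ₀).1.continuous
  have h1 : ∀ᶠ p : Ξ × Pl in 𝓝 (ξ₀, z₀), ∀ z, |h p.1 z - h ξ₀ z| ≤ ε / 3 :=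
    (continuous_fst.tendsto (ξ₀, z₀)).eventually (H.cont ξ₀ _ (by positivity))
  have h2 : ∀ᶠ p : Ξ × Pl in 𝓝 (ξ₀, z₀), dist (h ξ₀ p.2) (h ξ₀ z₀) < ε / 3 := by
    have h3 : Tendsto (fun p : Ξ × Pl => h ξ₀ p.2) (𝓝 (ξ₀, z₀)) (𝓝 (h ξ₀ z₀)) :=
      (hp.tendsto z₀).comp (continuous_snd.tendsto (ξ₀, z₀))
    exact (Metric.tendsto_nhds.1 h3) _ (by positivity)
  filter_upwards [h1, h2] with p hp1 hp2
  have h4 : dist (h p.1 p.2) (h ξ₀ p.2) ≤ ε / 3 := by
    rw [Real.dist_eq]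
    exact hp1 p.2
  have h5 := dist_triangle (h p.1 p.2) (h ξ₀ p.2) (h ξ₀ z₀)
  show dist (h p.1 p.2) (h ξ₀ z₀) < ε
  linarith

theorem CF.cont_cf (H : CF Γ m h) : Continuous fun p : Ξ × Pl => cf (h p.1) m p.2 := by
  have h1 : Continuous m := H.rp.smooth.continuous
  have h2 : Continuous fun p : Ξ × Pl => Real.exp (h p.1 p.2) :=
    Real.continuous_exp.comp H.cont_h
  exact h2.smul (h1.comp continuous_snd)

theorem M6_lim {X : Type} {l : Filter X} {f : X → ℝ} {a : ℝ}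
    (h : ∀ ε : ℝ, 0 < ε → ∀ᶠ x in l, f x ≤ Real.exp (ε / 2) * a ∧ a ≤ Real.exp (ε / 2) * f x) :
    Tendsto f l (𝓝 a) := by
  have hc1 : Tendsto (fun ε : ℝ => Real.exp (ε / 2) * a) (𝓝[>] 0) (𝓝 a) := by
    have h1 : Continuous fun ε : ℝ => Real.exp (ε / 2) * a := by fun_prop
    have h2 := h1.tendsto 0
    simp only [zero_div, Real.exp_zero, one_mul] at h2
    exact h2.mono_left nhdsWithin_le_nhds
  have hc2 : Tendsto (fun ε : ℝ => Real.exp (-(ε / 2)) * a) (𝓝[>] 0) (𝓝 a) := by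
    have h1 : Continuous fun ε : ℝ => Real.exp (-(ε / 2)) * a := by fun_prop
    have h2 := h1.tendsto 0
    simp only [zero_div, neg_zero, Real.exp_zero, one_mul] at h2
    exact h2.mono_left nhdsWithin_le_nhds
  refine tendsto_order.2 ⟨fun b hb => ?_, fun b hb => ?_⟩
  · obtain ⟨ε, hε, hε0⟩ := ((hc2.eventually (lt_mem_nhds hb)).and self_mem_nhdsWithin).exists
    filter_upwards [h ε hε0] with x hx
    refine hε.trans_le ?_
    have h3 := mul_le_mul_of_nonneg_left hx.2 (Real.exp_pos (-(ε / 2))).le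
    rwa [← mul_assoc, ← Real.exp_add, neg_add_cancel, Real.exp_zero, one_mul] at h3
  · obtain ⟨ε, hε, hε0⟩ := ((hc1.eventually (gt_mem_nhds hb)).and self_mem_nhdsWithin).exists
    filter_upwards [h ε hε0] with x hx
    exact hx.1.trans_lt hε

theorem CF.cont_area (hX : Surface Γ D) (H : CF Γ m h) :
    Continuous fun ξ : Ξ => ∫ z in D, √(dt (cf (h ξ) m z)) := by
  have e : ∀ ξ z, √(dt (cf (h ξ) m z)) = Real.exp (h ξ z) * √(dt (m z)) := by
    intro ξ z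
    have h1 : dt (cf (h ξ) m z) = Real.exp (h ξ z) ^ 2 * dt (m z) := by
      unfold cf dt
      simp only [Prod.smul_fst, Prod.smul_snd, smul_eq_mul]
      ring
    rw [h1, Real.sqrt_mul (by positivity), Real.sqrt_sq (Real.exp_pos _).le]
  have hd : Continuous fun z => √(dt (m z)) :=
    Real.continuous_sqrt.comp (Cmp_dt_cont.comp H.rp.smooth.continuous)
  have hi : ∀ ξ, IntegrableOn (fun z => Real.exp (h ξ z) * √(dt (m z))) D := fun ξ =>
    Cmp_int hX ((Real.continuous_exp.comp (H.test ξ).1.continuous).mul hd)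
  simp only [e]
  rw [continuous_iff_continuousAt]
  intro ξ₀
  refine M6_lim fun ε hε => ?_
  filter_upwards [H.cont ξ₀ (ε / 2) (by positivity)] with ξ hξ
  constructor
  · rw [← integral_const_mul]
    refine integral_mono (hi ξ) ((hi ξ₀).const_mul _) fun z => ?_
    show Real.exp (h ξ z) * √(dt (m z)) ≤ Real.exp (ε / 2) * (Real.exp (h ξ₀ z) * √(dt (m z)))
    rw [← mul_assoc, ← Real.exp_add]
    refine mul_le_mul_of_nonneg_right (Real.exp_le_exp.2 ?_) (Real.sqrt_nonneg _)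
    have := (abs_le.1 (hξ z)).2
    linarith
  · rw [← integral_const_mul]
    refine integral_mono (hi ξ₀) ((hi ξ).const_mul _) fun z => ?_
    show Real.exp (h ξ₀ z) * √(dt (m z)) ≤ Real.exp (ε / 2) * (Real.exp (h ξ z) * √(dt (m z)))
    rw [← mul_assoc, ← Real.exp_add]
    refine mul_le_mul_of_nonneg_right (Real.exp_le_exp.2 ?_) (Real.sqrt_nonneg _)
    have := (abs_le.1 (hξ z)).1
    linarith

theorem CF.ds0 (H : CF Γ m h) (ξ₀ : Ξ) (z w : Pl) :
    Tendsto (fun ξ : Ξ => BGM.ds (cf (h ξ) m) z w) (𝓝 ξ₀) (𝓝 (BGM.ds (cf (h ξ₀) m) z w)) := by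
  refine M6_lim fun ε hε => ?_
  filter_upwards [H.cont ξ₀ ε hε] with ξ hξ
  refine ⟨D1_ds H.rp (H.test ξ).1 (H.test ξ₀).1 (fun z => ?_) z w,
    D1_ds H.rp (H.test ξ₀).1 (H.test ξ).1 (fun z => ?_) z w⟩
  · have := (abs_le.1 (hξ z)).2
    linarith
  · have := (abs_le.1 (hξ z)).1
    linarith

/-- The exponents are bounded, locally uniformly in the parameter. -/
theorem CF.bdd (hX : Surface Γ D) (H : CF Γ m h) (ξ₀ : Ξ) :
    ∃ B : ℝ, 0 < B ∧ ∀ᶠ ξ in 𝓝 ξ₀, ∀ z, |h ξ z| ≤ B := by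
  obtain ⟨B, hB, h1⟩ := test_bdd hX ⟨h ξ₀, H.test ξ₀⟩
  refine ⟨B + 1, by linarith, ?_⟩
  filter_upwards [H.cont ξ₀ 1 one_pos] with ξ hξ z
  have h2 : |h ξ₀ z| ≤ B := h1 z
  have h3 := abs_add_le (h ξ z - h ξ₀ z) (h ξ₀ z)
  rw [sub_add_cancel] at h3
  linarith [hξ z]

/-- The distances are continuous. -/
theorem CF.cont_ds (hX : Surface Γ D) (H : CF Γ m h) :
    Continuous fun q : Ξ × Pl × Pl => BGM.ds (cf (h q.1) m) q.2.1 q.2.2 := by
  obtain ⟨k, E, V, F, hB⟩ := H.base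
  rw [continuous_iff_continuousAt]
  rintro ⟨ξ₀, z₀, w₀⟩
  obtain ⟨B, hB0, hBd⟩ := H.bdd hX ξ₀
  set M := Real.exp (B / 2) with hM
  have h1 : Tendsto (fun q : Ξ × Pl × Pl => BGM.ds (cf (h q.1) m) z₀ w₀)
      (𝓝 (ξ₀, z₀, w₀)) (𝓝 (BGM.ds (cf (h ξ₀) m) z₀ w₀)) :=
    (H.ds0 ξ₀ z₀ w₀).comp (continuous_fst.tendsto (ξ₀, z₀, w₀))
  have h2 : Tendsto (fun q : Ξ × Pl × Pl => M * (BGM.ds m q.2.1 z₀ + BGM.ds m q.2.2 w₀))
      (𝓝 (ξ₀, z₀, w₀)) (𝓝 0) := by
    have hc : Continuous fun q : Ξ × Pl × Pl => M * (BGM.ds m q.2.1 z₀ + BGM.ds m q.2.2 w₀) := by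
      have e1 : Continuous fun q : Ξ × Pl × Pl => BGM.ds m q.2.1 z₀ :=
        (BGM.ds_continuous hB).comp
          ((continuous_fst.comp continuous_snd).prodMk continuous_const)
      have e2 : Continuous fun q : Ξ × Pl × Pl => BGM.ds m q.2.2 w₀ :=
        (BGM.ds_continuous hB).comp
          ((continuous_snd.comp continuous_snd).prodMk continuous_const)
      exact continuous_const.mul (e1.add e2)
    have h3 := hc.tendsto (ξ₀, z₀, w₀)
    simp only [BGM.ds_self H.rp, add_zero, mul_zero] at h3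
    exact h3
  have h3 := h1.sub h2
  have h4 := h1.add h2
  rw [sub_zero] at h3
  rw [add_zero] at h4
  have hev : ∀ᶠ q : Ξ × Pl × Pl in 𝓝 (ξ₀, z₀, w₀), ∀ z, |h q.1 z| ≤ B :=
    (continuous_fst.tendsto (ξ₀, z₀, w₀)).eventually hBd
  have hcmp : ∀ ξ, (∀ z, |h ξ z| ≤ B) → ∀ z w, BGM.ds (cf (h ξ) m) z w ≤ M * BGM.ds m z w := by
    intro ξ hξ z w
    have h5 := D1_ds (f := h ξ) (f' := fun _ => 0) H.rp (H.test ξ).1 contDiff_const
      (ε := B) (fun z => by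
        have := (abs_le.1 (hξ z)).2
        linarith) z w
    rw [D1_zero] at h5
    exact h5
  refine tendsto_of_tendsto_of_tendsto_of_le_of_le' h3 h4 ?_ ?_
  · filter_upwards [hev]
    rintro ⟨ξ, z, w⟩ hq
    show BGM.ds (cf (h ξ) m) z₀ w₀ - M * (BGM.ds m z z₀ + BGM.ds m w w₀) ≤
      BGM.ds (cf (h ξ) m) z w
    have hm := H.rpx ξ
    have t1 := BGM.ds_tri hm z₀ z w₀
    have t2 := BGM.ds_tri hm z w w₀
    have t3 := hcmp ξ hq z z₀
    have t4 := hcmp ξ hq w w₀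
    rw [BGM.ds_symm hm z₀ z] at t1
    linarith
  · filter_upwards [hev]
    rintro ⟨ξ, z, w⟩ hq
    show BGM.ds (cf (h ξ) m) z w ≤
      BGM.ds (cf (h ξ) m) z₀ w₀ + M * (BGM.ds m z z₀ + BGM.ds m w w₀)
    have hm := H.rpx ξ
    have t1 := BGM.ds_tri hm z z₀ w
    have t2 := BGM.ds_tri hm z₀ w₀ w
    have t3 := hcmp ξ hq z z₀
    have t4 := hcmp ξ hq w w₀
    rw [BGM.ds_symm hm w₀ w] at t2
    linarith

variable [MeasurableSpace Ξ] [OpensMeasurableSpace Ξ] [SecondCountableTopology Ξ]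

/-- The curvature is measurable. -/
theorem CF.meas_curv (H : CF Γ m h) :
    Measurable fun p : Ξ × Pl => curv (cf (h p.1) m) p.2 := by
  have hs : ∀ ξ, ContDiff ℝ ∞ (cf (h ξ) m) := fun ξ => (H.rpx ξ).smooth
  have hm : Measurable fun p : Ξ × Pl => cf (h p.1) m p.2 := H.cont_cf.measurable
  have hE : ∀ ξ, ContDiff ℝ ∞ fun w => (cf (h ξ) m w).1 := fun ξ => (hs ξ).fst
  have hF : ∀ ξ, ContDiff ℝ ∞ fun w => (cf (h ξ) m w).2.1 := fun ξ => (hs ξ).snd.fst
  have hG : ∀ ξ, ContDiff ℝ ∞ fun w => (cf (h ξ) m w).2.2 := fun ξ => (hs ξ).snd.snd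
  have e0 : Measurable fun p : Ξ × Pl => (cf (h p.1) m p.2).1 := hm.fst
  have f0 : Measurable fun p : Ξ × Pl => (cf (h p.1) m p.2).2.1 := hm.snd.fst
  have g0 : Measurable fun p : Ξ × Pl => (cf (h p.1) m p.2).2.2 := hm.snd.snd
  have e1 := meas_dx (F := fun ξ w => (cf (h ξ) m w).1) e0 hE
  have e2 := meas_dy (F := fun ξ w => (cf (h ξ) m w).1) e0 hE
  have f1 := meas_dx (F := fun ξ w => (cf (h ξ) m w).2.1) f0 hF
  have f2 := meas_dy (F := fun ξ w => (cf (h ξ) m w).2.1) f0 hF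
  have g1 := meas_dx (F := fun ξ w => (cf (h ξ) m w).2.2) g0 hG
  have g2 := meas_dy (F := fun ξ w => (cf (h ξ) m w).2.2) g0 hG
  have e3 := meas_dy (F := fun ξ => dy fun w => (cf (h ξ) m w).1) e2
    fun ξ => Egr_smooth_dy (hE ξ)
  have f3 := meas_dy (F := fun ξ => dx fun w => (cf (h ξ) m w).2.1) f1
    fun ξ => Egr_smooth_dx (hF ξ)
  have g3 := meas_dx (F := fun ξ => dx fun w => (cf (h ξ) m w).2.2) g1
    fun ξ => Egr_smooth_dx (hG ξ)
  have e : (fun p : Ξ × Pl => curv (cf (h p.1) m) p.2) = fun p =>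
      E2_N (fun w => (cf (h p.1) m w).1) (fun w => (cf (h p.1) m w).2.1)
        (fun w => (cf (h p.1) m w).2.2) p.2 / dt (cf (h p.1) m p.2) ^ 2 := by
    funext p
    exact E2_form _ _
  rw [e]
  unfold E2_N dt
  refine Measurable.div ?_ (((e0.mul g0).sub (f0.pow_const 2)).pow_const 2)
  have a1 := ((e3.neg.div_const 2).add f3).sub (g3.div_const 2)
  have a4 := f2.sub (g1.div_const 2)
  have a5 := g2.div_const 2
  have a6 := e2.div_const 2
  have a7 := g1.div_const 2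
  exact ((((a1.mul ((e0.mul g0).sub (f0.mul f0))).add
    ((e1.div_const 2).neg.mul ((a4.mul g0).sub (f0.mul a5)))).add
    ((f1.sub a6).mul ((a4.mul f0).sub (e0.mul a5)))).add
    (a6.mul ((a6.mul g0).sub (f0.mul a7)))).add
    (a7.neg.mul ((a6.mul f0).sub (e0.mul a7)))

/-- The metrics with curvature at most `κ` everywhere. -/
theorem CF.meas_low (H : CF Γ m h) (κ : ℝ) :
    MeasurableSet {ξ : Ξ | ∀ z, curv (cf (h ξ) m) z ≤ κ} := by
  obtain ⟨s, hsc, hsd⟩ := TopologicalSpace.exists_countable_dense Pl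
  have key : {ξ : Ξ | ∀ z, curv (cf (h ξ) m) z ≤ κ} =
      ⋂ z ∈ s, {ξ : Ξ | curv (cf (h ξ) m) z ≤ κ} := by
    ext ξ
    have hc : Continuous (curv (cf (h ξ) m)) := E2_cont (H.rpx ξ)
    simp only [mem_iInter]
    constructor
    · intro h1 z _
      exact h1 z
    · intro h1 z
      have hclosed : IsClosed {y : Pl | curv (cf (h ξ) m) y ≤ κ} :=
        isClosed_le hc continuous_const
      have h2 : z ∈ closure s := hsd z
      exact closure_minimal (fun y hy => h1 y hy) hclosed h2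
  rw [key]
  refine MeasurableSet.biInter hsc fun z _ => measurableSet_le ?_ measurable_const
  have h1 : Measurable fun ξ : Ξ => ((ξ, z) : Ξ × Pl) := by fun_prop
  have h2 := H.meas_curv.comp h1
  exact h2

/-- The metrics of negative curvature. -/
theorem CF.meas_neg (hX : Surface Γ D) (H : CF Γ m h) :
    MeasurableSet {ξ : Ξ | ∀ z, curv (cf (h ξ) m) z < 0} := by
  have key : {ξ : Ξ | ∀ z, curv (cf (h ξ) m) z < 0} =
      ⋃ j : ℕ, {ξ : Ξ | ∀ z, curv (cf (h ξ) m) z ≤ -(1 / ((j : ℝ) + 1))} := by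
    ext ξ
    simp only [mem_iUnion]
    constructor
    · intro h1
      obtain ⟨a, b, ha, -, hb⟩ := curv_bounds hX (H.hmx h1)
      obtain ⟨j, hj⟩ := exists_nat_one_div_lt (pow_pos ha 2)
      refine ⟨j, fun z => ?_⟩
      have h3 := (hb z).2
      linarith
    · rintro ⟨j, hj⟩ z
      have h5 : (0 : ℝ) < 1 / ((j : ℝ) + 1) := by positivity
      exact (hj z).trans_lt (by linarith)
  rw [key]
  exact MeasurableSet.iUnion fun j => H.meas_low _

/-- The family on the set of negative curvature. -/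
theorem CF.mf (hX : Surface Γ D) (H : CF Γ m h) :
    MF Γ (fun w : {ξ : Ξ // ∀ z, curv (cf (h ξ) m) z < 0} => cf (h w.1) m) where
  hm := fun w => H.hmx w.2
  meas := by
    have h1 : Measurable fun p : Ξ × Pl => cf (h p.1) m p.2 := H.cont_cf.measurable
    have h2 : Measurable fun p : {ξ : Ξ // ∀ z, curv (cf (h ξ) m) z < 0} × Pl =>
        ((p.1.1, p.2) : Ξ × Pl) :=
      (measurable_subtype_coe.comp measurable_fst).prodMk measurable_snd
    have h3 := h1.comp h2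
    exact h3
  dist := by
    have h1 : Measurable fun q : Ξ × Pl × Pl => BGM.ds (cf (h q.1) m) q.2.1 q.2.2 :=
      (H.cont_ds hX).measurable
    have h2 : Measurable fun p : {ξ : Ξ // ∀ z, curv (cf (h ξ) m) z < 0} × Pl × Pl =>
        ((p.1.1, p.2) : Ξ × Pl × Pl) :=
      (measurable_subtype_coe.comp measurable_fst).prodMk measurable_snd
    have h3 := h1.comp h2
    have e : (fun p : {ξ : Ξ // ∀ z, curv (cf (h ξ) m) z < 0} × Pl × Pl =>
        eu (Vx (cf (h p.1.1) m) p.2.1 p.2.2)) =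
        (fun q : Ξ × Pl × Pl => BGM.ds (cf (h q.1) m) q.2.1 q.2.2) ∘
          fun p : {ξ : Ξ // ∀ z, curv (cf (h ξ) m) z < 0} × Pl × Pl =>
            ((p.1.1, p.2) : Ξ × Pl × Pl) := by
      funext p
      exact (ds_eu hX (H.hmx p.1.2) p.2.1 p.2.2).symm
    rw [e]
    exact h3

end BM73
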